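import Mathlib
import Pool.Agent.H54.Shuffle

set_option autoImplicit false

namespace Pool.Agent.Results.MP_005a57_co.NearLinear

/-- A lazy transposition on `[n]` with parameters `(a, b, p)`, `a ≠ b`, `p ∈ [0,1]`: it equals the
transposition `(a b)` with probability `p` and the identity with probability `1 - p`. -/
structure LazyTransposition (n : ℕ) where
  a : Fin n
  b : Fin n
  p : ℝ
  a_ne_b : a ≠ b
  p_nonneg : 0 ≤ p
  p_le_one : p ≤ 1

/-- The value of the product `T₁ T₂ ⋯ T_l` when the `i`-th lazy transposition is active exactly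
for those `i` with `ε i = true`. -/
def outcome {n l : ℕ} (T : Fin l → LazyTransposition n) (ε : Fin l → Bool) :
    Equiv.Perm (Fin n) :=
  (List.ofFn fun i => if ε i then Equiv.swap (T i).a (T i).b else 1).prod

/-- The probability of the activity pattern `ε` (the `T i` are independent). -/
def weight {n l : ℕ} (T : Fin l → LazyTransposition n) (ε : Fin l → Bool) : ℝ :=
  ∏ i, if ε i then (T i).p else 1 - (T i).p

open Classical in
/-- The probability that the random permutation `σ = T₁ T₂ ⋯ T_l` has the property `E`. -/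
noncomputable def prob {n l : ℕ} (T : Fin l → LazyTransposition n)
    (E : Equiv.Perm (Fin n) → Prop) : ℝ :=
  ∑ ε : Fin l → Bool, if E (outcome T ε) then weight T ε else 0

/-- `T` is a strong `(k,n)`-shuffle: for all `x₁ < ⋯ < x_k` the tuple `(σ(x₁), …, σ(x_k))` is
uniformly distributed over the `n(n-1)⋯(n-k+1)` ordered `k`-tuples of distinct elements. -/
def IsStrongShuffle {n l : ℕ} (k : ℕ) (T : Fin l → LazyTransposition n) : Prop :=
  ∀ x : Fin k → Fin n, StrictMono x → ∀ y : Fin k → Fin n, Function.Injective y →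
    prob T (fun σ => ∀ i, σ (x i) = y i) = 1 / (n.descFactorial k : ℝ)

/-- `U^all_k(n)`: the least length of a strong `(k,n)`-shuffle. -/
noncomputable def Uall (k n : ℕ) : ℕ :=
  sInf {l | ∃ T : Fin l → LazyTransposition n, IsStrongShuffle k T}

open Pool.Agent.H54.Shuffle

/-- forget the side conditions -/
def toLT {n : ℕ} (t : LazyTransposition n) : RawLT (Fin n) := ⟨t.a, t.b, t.p⟩

lemma sum_eq_Ex {n : ℕ} {l : ℕ} (T : Fin l → LazyTransposition n)
    (F : Equiv.Perm (Fin n) → ℝ) :
    ∑ ε : Fin l → Bool, weight T ε * F (outcome T ε) = Ex (List.ofFn fun i => toLT (T i)) F := by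
  induction l generalizing F with
  | zero => simp [weight, outcome, Ex]
  | succ l ih =>
    rw [← (Fin.consEquiv (fun _ : Fin (l + 1) => Bool)).sum_comp, Fintype.sum_prod_type,
      Fintype.sum_bool]
    have hT : ∀ (b : Bool) (ε : Fin l → Bool),
        weight T ((Fin.consEquiv (fun _ : Fin (l + 1) => Bool)) (b, ε)) =
          (if b then (T 0).p else 1 - (T 0).p) * weight (fun i => T i.succ) ε := by
      intro b ε
      simp [weight, Fin.prod_univ_succ, Fin.consEquiv]
    have hO : ∀ (b : Bool) (ε : Fin l → Bool),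
        outcome T ((Fin.consEquiv (fun _ : Fin (l + 1) => Bool)) (b, ε)) =
          (if b then Equiv.swap (T 0).a (T 0).b else 1) * outcome (fun i => T i.succ) ε := by
      intro b ε
      simp [outcome, List.ofFn_succ, Fin.consEquiv]
    simp only [hT, hO, if_true, Bool.false_eq_true, if_false, one_mul]
    rw [List.ofFn_succ]
    show _ = (1 - (T 0).p) * Ex (List.ofFn fun i => toLT (T i.succ)) F +
      (T 0).p * Ex (List.ofFn fun i => toLT (T i.succ))
        (fun σ => F (Equiv.swap (T 0).a (T 0).b * σ))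
    rw [← ih (fun i => T i.succ) F, ← ih (fun i => T i.succ)
      (fun σ => F (Equiv.swap (T 0).a (T 0).b * σ)), Finset.mul_sum, Finset.mul_sum, add_comm]
    congr 1
    · refine Finset.sum_congr rfl fun ε _ => ?_
      ring
    · refine Finset.sum_congr rfl fun ε _ => ?_
      ring

lemma prob_eq_Ex {n l : ℕ} (T : Fin l → LazyTransposition n) (E : Equiv.Perm (Fin n) → Prop) :
    prob T E = Ex (List.ofFn fun i => toLT (T i)) (fun σ => ind (E σ)) := by
  classical
  rw [← sum_eq_Ex T (fun σ => ind (E σ))]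
  unfold prob
  refine Finset.sum_congr rfl fun ε _ => ?_
  rw [ind_eq_ite]
  split_ifs <;> simp

/-- uniformity from invariance -/
lemma uniform_of_inv {n k : ℕ} {l : List (RawLT (Fin n))} (hI : Inv k Finset.univ l)
    (x y : Fin k → Fin n) (hx : Function.Injective x) (hy : Function.Injective y) :
    Ex l (fun σ => ind (∀ i, σ (x i) = y i)) = 1 / (n.descFactorial k : ℝ) := by
  classical
  -- constancy in `x`
  have hconst : ∀ x' : Fin k ↪ Fin n, Ex l (fun σ => ind (∀ i, σ (x' i) = y i)) =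
      Ex l (fun σ => ind (∀ i, σ (x i) = y i)) := by
    intro x'
    obtain ⟨π, hπ⟩ : ∃ π : Equiv.Perm (Fin n), ∀ i, π (x i) = x' i :=
      Equiv.Perm.exists_extending_pair x x' hx x'.injective
    have := hI x π (fun z hz => absurd (Finset.mem_univ z) hz) (fun z => ind (∀ i, z i = y i))
    simp only [hπ] at this
    exact this
  have hsum : ∑ x' : Fin k ↪ Fin n, Ex l (fun σ => ind (∀ i, σ (x' i) = y i)) = 1 := by
    rw [← Ex_sum]
    have : ∀ σ : Equiv.Perm (Fin n), ∑ x' : Fin k ↪ Fin n, ind (∀ i, σ (x' i) = y i) = 1 := by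
      intro σ
      let x0 : Fin k ↪ Fin n := ⟨fun i => σ.symm (y i), fun a b h => hy (σ.symm.injective h)⟩
      rw [Finset.sum_eq_single_of_mem x0 (Finset.mem_univ _)]
      · exact ind_true (fun i => by simp [x0])
      · intro x' _ hne
        apply ind_false
        intro h
        apply hne
        ext i
        have := h i
        simp only [x0, Function.Embedding.coeFn_mk]
        rw [← this]
        simp
    simp only [this]
    exact Ex_const l 1
  rw [Finset.sum_congr rfl (fun x' _ => hconst x'), Finset.sum_const, nsmul_eq_mul,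
    Finset.card_univ, Fintype.card_embedding_eq, Fintype.card_fin, Fintype.card_fin] at hsum
  have hne : (n.descFactorial k : ℝ) ≠ 0 := by
    intro h
    rw [h, zero_mul] at hsum
    exact zero_ne_one hsum
  rw [eq_div_iff hne, mul_comm]
  exact hsum

/-- Existence with the length bound. -/
lemma exists_shuffle (k : ℕ) : ∃ C : ℕ, ∀ n : ℕ, ∃ l : ℕ, ∃ T : Fin l → LazyTransposition n,
    IsStrongShuffle k T ∧ l ≤ C * n * (Nat.clog 2 n + 1) ^ (2 * k) := by
  obtain ⟨C, hC⟩ := exists_inv k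
  refine ⟨C, fun n => ?_⟩
  obtain ⟨L, hV, -, hI, hlen⟩ := hC (Fin n) Finset.univ
  rw [Finset.card_univ, Fintype.card_fin] at hlen
  refine ⟨L.length, fun i => ⟨(L.get i).a, (L.get i).b, (L.get i).p, (hV _ (L.get_mem i)).1,
    (hV _ (L.get_mem i)).2.1, (hV _ (L.get_mem i)).2.2⟩, ?_, hlen⟩
  intro x hx y hy
  rw [prob_eq_Ex]
  have hL : (List.ofFn fun i : Fin L.length => toLT (⟨(L.get i).a, (L.get i).b, (L.get i).p,
      (hV _ (L.get_mem i)).1, (hV _ (L.get_mem i)).2.1, (hV _ (L.get_mem i)).2.2⟩ :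
        LazyTransposition n)) = L := by
    simp only [toLT]
    exact List.ofFn_get L
  rw [hL]
  exact uniform_of_inv hI x y hx.injective hy

lemma clog_le_log {n : ℕ} (hn : 1 ≤ n) : ((Nat.clog 2 n + 1 : ℕ) : ℝ) ≤ 2 * (Real.log n + 1) := by
  have h1 : Nat.clog 2 n ≤ Nat.log 2 n + 1 := by
    rcases Nat.lt_or_ge n 2 with h | h
    · have : n = 1 := by omega
      subst this
      simp
    · exact Nat.clog_le_of_le_pow (Nat.lt_pow_succ_log_self (by norm_num) n).le
  have h2 : ((Nat.log 2 n : ℕ) : ℝ) ≤ Real.logb 2 n := Real.natLog_le_logb n 2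
  have h3 : (0 : ℝ) ≤ Real.log n := Real.log_natCast_nonneg n
  have h4 : Real.logb 2 n ≤ 2 * Real.log n := by
    rw [Real.logb, div_le_iff₀ (Real.log_pos (by norm_num))]
    have : (1 / 2 : ℝ) ≤ Real.log 2 := by
      have := Real.log_two_gt_d9
      linarith
    nlinarith
  have h5 : ((Nat.clog 2 n + 1 : ℕ) : ℝ) ≤ (Nat.log 2 n : ℝ) + 2 := by
    have : ((Nat.clog 2 n + 1 : ℕ) : ℝ) ≤ ((Nat.log 2 n + 1 + 1 : ℕ) : ℝ) := by
      exact_mod_cast Nat.add_le_add_right h1 1
    push_cast at this ⊢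
    linarith
  linarith

/-- **Near-linear strong shuffles.** For every `k ≥ 1`, strong `(k,n)`-shuffles exist for all
`n ≥ k`, the least length satisfies `U^all_k(n) ≤ C_k n (log n + 1)^{2k}`, and hence
`U^all_k(n) = O(n^{1+ε})` for every `ε > 0`. -/
theorem result : ∀ k : ℕ, 1 ≤ k →
    (∀ n : ℕ, k ≤ n → ∃ l : ℕ, ∃ T : Fin l → LazyTransposition n, IsStrongShuffle k T) ∧
    (∃ C : ℝ, ∀ n : ℕ, k ≤ n → (Uall k n : ℝ) ≤ C * n * (Real.log n + 1) ^ (2 * k)) ∧
    ∀ ε : ℝ, 0 < ε →
      (fun n : ℕ => (Uall k n : ℝ)) =O[Filter.atTop] (fun n : ℕ => (n : ℝ) ^ (1 + ε)) := by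
  intro k hk
  obtain ⟨C, hC⟩ := exists_shuffle k
  have hbound : ∀ n : ℕ, k ≤ n →
      (Uall k n : ℝ) ≤ (C * 2 ^ (2 * k)) * n * (Real.log n + 1) ^ (2 * k) := by
    intro n hn
    obtain ⟨l, T, hT, hl⟩ := hC n
    have h1 : Uall k n ≤ l := Nat.sInf_le ⟨T, hT⟩
    have h2 : (Uall k n : ℝ) ≤ ((C * n * (Nat.clog 2 n + 1) ^ (2 * k) : ℕ) : ℝ) := by
      exact_mod_cast h1.trans hl
    refine h2.trans ?_
    rw [Nat.cast_mul, Nat.cast_mul, Nat.cast_pow]
    have h3 := clog_le_log (show 1 ≤ n by omega)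
    have h4 : (((Nat.clog 2 n + 1 : ℕ) : ℝ)) ^ (2 * k) ≤ (2 * (Real.log n + 1)) ^ (2 * k) :=
      pow_le_pow_left₀ (by positivity) h3 _
    calc (C : ℝ) * n * ((Nat.clog 2 n + 1 : ℕ) : ℝ) ^ (2 * k)
        ≤ C * n * (2 * (Real.log n + 1)) ^ (2 * k) := by gcongr
      _ = (C * 2 ^ (2 * k)) * n * (Real.log n + 1) ^ (2 * k) := by rw [mul_pow]; ring
  refine ⟨fun n _ => ?_, ⟨_, hbound⟩, ?_⟩
  · obtain ⟨l, T, hT, -⟩ := hC n
    exact ⟨l, T, hT⟩
  · intro ε hε
    have hr : 0 < ε / (2 * k) := by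
      have : (0 : ℝ) < k := by exact_mod_cast hk
      positivity
    have h0 : (fun _ : ℝ => (1 : ℝ)) =O[Filter.atTop] fun x : ℝ => x ^ (ε / (2 * k)) := by
      refine Asymptotics.IsBigO.of_bound 1 ?_
      filter_upwards [Filter.eventually_ge_atTop 1] with x hx
      rw [one_mul, norm_one, Real.norm_of_nonneg (by positivity)]
      exact Real.one_le_rpow hx hr.le
    have h1 : (fun x : ℝ => Real.log x + 1) =O[Filter.atTop] fun x : ℝ => x ^ (ε / (2 * k)) :=
      (isLittleO_log_rpow_atTop hr).isBigO.add h0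
    have h2 : (fun n : ℕ => (Real.log n + 1) ^ (2 * k)) =O[Filter.atTop]
        fun n : ℕ => ((n : ℝ) ^ (ε / (2 * k))) ^ (2 * k) :=
      (h1.pow (2 * k)).comp_tendsto tendsto_natCast_atTop_atTop
    have h3 : (fun n : ℕ => (n : ℝ) * (Real.log n + 1) ^ (2 * k)) =O[Filter.atTop]
        fun n : ℕ => (n : ℝ) * ((n : ℝ) ^ (ε / (2 * k))) ^ (2 * k) :=
      (Asymptotics.isBigO_refl _ _).mul h2
    have h4 : (fun n : ℕ => (Uall k n : ℝ)) =O[Filter.atTop]
        fun n : ℕ => (n : ℝ) * (Real.log n + 1) ^ (2 * k) := by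
      refine Asymptotics.IsBigO.of_bound (C * 2 ^ (2 * k)) ?_
      filter_upwards [Filter.eventually_ge_atTop k] with n hn
      have hpos : 0 ≤ (n : ℝ) * (Real.log n + 1) ^ (2 * k) := by
        have := Real.log_natCast_nonneg n
        positivity
      rw [Real.norm_of_nonneg (Nat.cast_nonneg _), Real.norm_of_nonneg hpos]
      have := hbound n hn
      linarith
    refine (h4.trans h3).congr' Filter.EventuallyEq.rfl ?_
    filter_upwards [Filter.eventually_ge_atTop 1] with n hn
    have hn0 : (0 : ℝ) < n := by exact_mod_cast hn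
    have hk0 : (k : ℝ) ≠ 0 := by
      have : (0 : ℝ) < k := by exact_mod_cast hk
      exact this.ne'
    rw [← Real.rpow_natCast, ← Real.rpow_mul hn0.le, Real.rpow_add hn0, Real.rpow_one]
    congr 2
    push_cast
    field_simp

end Pool.Agent.Results.MP_005a57_co.NearLinear
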